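import Pool.Agent.X12.Halmos2

/-!
# The bilateral weighted shift with weights `2 ^ (-|n|)` is unicellular

If `f` lies in a closed invariant subspace `M` and `g ⊥ M`, then the coefficient sequences satisfy
`∑ n, a n * c (n + k) * w n ⋯ w (n + k - 1) = 0` for all `k ≥ 0`.  In terms of the Laurent series
`F(z) = ∑ a (-j) / β (-j) z ^ j`, `G(z) = ∑ c m β m z ^ m` the coefficients of the product of the
two regular parts are small compared with the larger of the two maximal terms on the circle
`|z| = 2 ^ ρ`, whereas Mahler measures show that the product is at least the product of the two maximal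
terms up to a factor `2 ^ (4 ρ)`.  Hence `a` vanishes far to the left or `c` vanishes far to the right, and
then everything is determined by the extreme coefficients.
-/

set_option autoImplicit false

namespace Pool.Agent.Results.MP_1e8505_an.HalmosChain

open Pool.Agent.X12.Halmos

section

universe u

variable {H : Type u} [NormedAddCommGroup H] [InnerProductSpace ℂ H]

/-- `M_k`, the closed span of the `e n` with `n ≥ k`. -/
def obvious (e : HilbertBasis ℤ ℂ H) (k : ℤ) : Submodule ℂ H :=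
  (Submodule.span ℂ {x | ∃ n : ℤ, k ≤ n ∧ x = e n}).topologicalClosure

/-- `W` is the bilateral weighted shift `W (e n) = 2 ^ (-|n|) e (n + 1)`. -/
def IsShift (e : HilbertBasis ℤ ℂ H) (W : H →L[ℂ] H) : Prop :=
  ∀ n : ℤ, W (e n) = ((2 : ℂ) ^ (-|n|)) • e (n + 1)

/-- The closed invariant subspaces of a bounded operator, ordered by inclusion. -/
abbrev Lat (A : H →L[ℂ] H) : Type u :=
  {M : Submodule ℂ H // IsClosed (M : Set H) ∧ ∀ x ∈ M, A x ∈ M}

lemma zpow_eq (n : ℤ) : ((2 : ℂ) ^ (-|n|)) = (1 / 2) ^ n.natAbs := by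
  rw [zpow_neg, Int.abs_eq_natAbs, zpow_natCast, one_div, inv_pow]

lemma inner_basis (e : HilbertBasis ℤ ℂ H) (m n : ℤ) : (inner ℂ (e m) (e n)) = if m = n then 1 else 0 :=
  orthonormal_iff_ite.1 e.orthonormal m n

lemma mem_obvious (e : HilbertBasis ℤ ℂ H) (k : ℤ) (x : H) :
    x ∈ obvious e k ↔ ∀ n < k, (inner ℂ (e n) x) = 0 := by
  constructor
  · intro hx n hn
    have h1 : obvious e k ≤ (ℂ ∙ e n)ᗮ := by
      refine Submodule.topologicalClosure_minimal _ ?_ (Submodule.isClosed_orthogonal _)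
      rw [Submodule.span_le]
      rintro y ⟨m, hm, rfl⟩
      rw [SetLike.mem_coe, Submodule.mem_orthogonal_singleton_iff_inner_right, inner_basis,
        if_neg (by omega)]
    exact Submodule.mem_orthogonal_singleton_iff_inner_right.1 (h1 hx)
  · intro hx
    have h1 := e.hasSum_repr x
    refine mem_closure_of_tendsto h1 (Filter.Eventually.of_forall fun s => ?_)
    rw [SetLike.mem_coe]
    refine Submodule.sum_mem _ fun i _ => ?_
    rw [e.repr_apply_apply]
    by_cases hi : k ≤ i
    · exact Submodule.smul_mem _ _ (Submodule.subset_span ⟨i, hi, rfl⟩)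
    · rw [hx i (by omega), zero_smul]
      exact Submodule.zero_mem _

lemma ext_basis (e : HilbertBasis ℤ ℂ H) {x y : H} (h : ∀ n, (inner ℂ (e n) x) = (inner ℂ (e n) y)) : x = y := by
  apply e.repr.injective
  ext n
  rw [e.repr_apply_apply, e.repr_apply_apply, h n]

lemma conj_half (k : ℕ) : (starRingEnd ℂ) ((1 / 2 : ℂ) ^ k) = (1 / 2) ^ k := by
  have h2 : (starRingEnd ℂ) (2 : ℂ) = 2 := map_ofNat _ 2
  rw [map_pow, map_div₀, map_one, h2]

lemma pow_mem {W : H →L[ℂ] H} {M : Submodule ℂ H} (hM : ∀ x ∈ M, W x ∈ M) {x : H} (hx : x ∈ M)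
    (k : ℕ) : (W ^ k) x ∈ M := by
  induction k with
  | zero => simpa using hx
  | succ k ih => rw [pow_succ']; exact hM _ ih

lemma summable_sq (e : HilbertBasis ℤ ℂ H) (x : H) : Summable fun n => ‖(inner ℂ (e n) x)‖ ^ 2 := by
  have h1 := (e.summable_inner_mul_inner x x).norm
  refine h1.congr fun n => ?_
  rw [norm_mul, norm_inner_symm x (e n), sq]

lemma obvious_closed (e : HilbertBasis ℤ ℂ H) (k : ℤ) : IsClosed (obvious e k : Set H) :=
  Submodule.isClosed_topologicalClosure _

lemma basis_mem_obvious (e : HilbertBasis ℤ ℂ H) {k n : ℤ} : e n ∈ obvious e k ↔ k ≤ n := by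
  rw [mem_obvious]
  constructor
  · intro h
    by_contra hcon
    have := h n (by omega)
    rw [inner_basis, if_pos rfl] at this
    exact one_ne_zero this
  · intro h m hm
    rw [inner_basis, if_neg (by omega)]

variable [CompleteSpace H]

/-- the coefficients of `W x` -/
lemma coord_W {e : HilbertBasis ℤ ℂ H} {W : H →L[ℂ] H} (hW : IsShift e W) (n : ℤ) (x : H) :
    (inner ℂ (e (n + 1)) (W x)) = (1 / 2) ^ n.natAbs * (inner ℂ (e n) x) := by
  have h1 : ContinuousLinearMap.adjoint W (e (n + 1)) = ((1 / 2 : ℂ) ^ n.natAbs) • e n := by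
    apply ext_basis e
    intro m
    rw [ContinuousLinearMap.adjoint_inner_right, hW m, zpow_eq, inner_smul_left, inner_smul_right,
      inner_basis, inner_basis]
    by_cases h : m = n
    · rw [if_pos (by rw [h]), if_pos h, h, conj_half]
    · rw [if_neg (by omega), if_neg h, mul_zero, mul_zero]
  rw [← ContinuousLinearMap.adjoint_inner_left, h1, inner_smul_left, conj_half]

/-- the coefficients of `W ^ k x` -/
lemma coord_W_pow {e : HilbertBasis ℤ ℂ H} {W : H →L[ℂ] H} (hW : IsShift e W) (n : ℤ) (k : ℕ)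
    (x : H) : (inner ℂ (e (n + k)) ((W ^ k) x)) = (1 / 2) ^ ex n k * (inner ℂ (e n) x) := by
  induction k with
  | zero => simp
  | succ k ih =>
    have h1 : n + ((k + 1 : ℕ) : ℤ) = (n + k) + 1 := by push_cast; ring
    rw [h1, pow_succ', mul_apply_eq_comp, coord_W hW, ih, ex_succ, pow_add]
    ring

/-- The relation between a vector of `M` and a vector orthogonal to `M`. -/
lemma rel_of {e : HilbertBasis ℤ ℂ H} {W : H →L[ℂ] H} (hW : IsShift e W) {M : Submodule ℂ H}
    (hM : ∀ x ∈ M, W x ∈ M) {f g : H} (hf : f ∈ M) (hg : g ∈ Mᗮ) :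
    Rel (fun n => (inner ℂ (e n) f)) (fun n => (inner ℂ g (e n))) := by
  refine ⟨summable_sq e f, ?_, fun k => ?_⟩
  · refine (summable_sq e g).congr fun n => ?_
    rw [norm_inner_symm]
  · have h1 := e.hasSum_inner_mul_inner g ((W ^ k) f)
    rw [(Submodule.mem_orthogonal' M g).1 hg _ (pow_mem hM hf k)] at h1
    have h2 := (Equiv.addRight (k : ℤ)).hasSum_iff.2 h1
    have h3 : (fun n : ℤ => (fun n => (inner ℂ (e n) f)) n * (fun n => (inner ℂ g (e n))) (n + k) *
        ((1 : ℂ) / 2) ^ ex n k) = (fun i => (inner ℂ g (e i)) * (inner ℂ (e i) ((W ^ k) f))) ∘ (Equiv.addRight (k : ℤ)) := by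
      funext n
      simp only [Function.comp, Equiv.coe_addRight]
      rw [coord_W_pow hW]
      ring
    rw [h3]
    exact h2

/-- Every nonzero vector of `M ≠ H` has a lowest coefficient. -/
lemma exists_lowest {e : HilbertBasis ℤ ℂ H} {W : H →L[ℂ] H} (hW : IsShift e W)
    {M : Submodule ℂ H} (hM : ∀ x ∈ M, W x ∈ M) {f g : H} (hf : f ∈ M) (hf0 : f ≠ 0)
    (hg : g ∈ Mᗮ) (hg0 : g ≠ 0) : ∃ k, (inner ℂ (e k) f) ≠ 0 ∧ ∀ n < k, (inner ℂ (e n) f) = 0 := by
  have hrel := rel_of hW hM hf hg
  by_cases hb : ∃ b : ℤ, ∀ z, (inner ℂ (e z) f) ≠ 0 → b ≤ z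
  · have hex : ∃ z, (inner ℂ (e z) f) ≠ 0 := by
      by_contra hcon
      push Not at hcon
      apply hf0
      apply ext_basis e
      intro n
      rw [hcon n, inner_zero_right]
    obtain ⟨k, hk, hmin⟩ := Int.exists_least_of_bdd hb hex
    refine ⟨k, hk, fun n hn => ?_⟩
    by_contra hcon
    have := hmin n hcon
    omega
  · exfalso
    push Not at hb
    have ha : ∀ N : ℤ, ∃ n ≤ N, (inner ℂ (e n) f) ≠ 0 := by
      intro N
      obtain ⟨z, hz, hlt⟩ := hb N
      exact ⟨z, hlt.le, hz⟩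
    by_cases hc : ∃ b : ℤ, ∀ z, (inner ℂ g (e z)) ≠ 0 → z ≤ b
    · have hex : ∃ z, (inner ℂ g (e z)) ≠ 0 := by
        by_contra hcon
        push Not at hcon
        apply hg0
        apply ext_basis e
        intro n
        rw [inner_zero_right, ← inner_conj_symm, hcon n, map_zero]
      obtain ⟨m₀, hm₀, hmax⟩ := Int.exists_greatest_of_bdd hc hex
      have h1 := top hrel (m₀ := m₀) hm₀ (fun m hm => by
        by_contra hcon
        have := hmax m hcon
        omega)
      obtain ⟨n, hn, hna⟩ := ha m₀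
      exact hna (h1 n hn)
    · push Not at hc
      refine cross hrel ha fun N => ?_
      obtain ⟨z, hz, hlt⟩ := hc N
      exact ⟨z, hlt.le, hz⟩

/-- The closed invariant subspaces. -/
theorem classification {e : HilbertBasis ℤ ℂ H} {W : H →L[ℂ] H} (hW : IsShift e W)
    {M : Submodule ℂ H} (hcl : IsClosed (M : Set H)) (hM : ∀ x ∈ M, W x ∈ M) :
    M = ⊥ ∨ M = ⊤ ∨ ∃ k, M = obvious e k := by
  have hMM : Mᗮᗮ = M := by
    rw [Submodule.orthogonal_orthogonal_eq_closure, hcl.submodule_topologicalClosure_eq]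
  by_cases hbot : M = ⊥
  · exact Or.inl hbot
  by_cases htop : Mᗮ = ⊥
  · refine Or.inr (Or.inl ?_)
    rw [← hMM, htop, Submodule.bot_orthogonal_eq_top]
  refine Or.inr (Or.inr ?_)
  obtain ⟨f₀, hf₀, hf₀0⟩ := Submodule.exists_mem_ne_zero_of_ne_bot hbot
  obtain ⟨g₀, hg₀, hg₀0⟩ := Submodule.exists_mem_ne_zero_of_ne_bot htop
  -- `g ⊥ M` vanishes above the lowest coefficient of `f ∈ M`
  have hvan : ∀ f ∈ M, ∀ g ∈ Mᗮ, ∀ k, (inner ℂ (e k) f) ≠ 0 → (∀ n < k, (inner ℂ (e n) f) = 0) →
      ∀ m ≥ k, (inner ℂ g (e m)) = 0 := by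
    intro f hf g hg k hk hlow
    exact bottom (rel_of hW hM hf hg) hk hlow
  obtain ⟨m₁, hm₁⟩ : ∃ m₁, (inner ℂ g₀ (e m₁)) ≠ 0 := by
    by_contra hcon
    push Not at hcon
    apply hg₀0
    apply ext_basis e
    intro n
    rw [inner_zero_right, ← inner_conj_symm, hcon n, map_zero]
  obtain ⟨k, ⟨f₁, hf₁, hk₁, hlow₁⟩, hmin⟩ := Int.exists_least_of_bdd
    (P := fun k => ∃ f ∈ M, (inner ℂ (e k) f) ≠ 0 ∧ ∀ n < k, (inner ℂ (e n) f) = 0)
    ⟨m₁, fun z ⟨f, hf, hz, hlow⟩ => by
      by_contra hcon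
      exact hm₁ (hvan f hf g₀ hg₀ z hz hlow m₁ (by omega))⟩
    (by
      obtain ⟨k, hk⟩ := exists_lowest hW hM hf₀ hf₀0 hg₀ hg₀0
      exact ⟨k, f₀, hf₀, hk⟩)
  refine ⟨k, le_antisymm ?_ ?_⟩
  · intro f hf
    rw [mem_obvious]
    by_cases hf0 : f = 0
    · intro n _; rw [hf0, inner_zero_right]
    obtain ⟨kf, hkf, hlow⟩ := exists_lowest hW hM hf hf0 hg₀ hg₀0
    have h1 := hmin kf ⟨f, hf, hkf, hlow⟩
    intro n hn
    exact hlow n (by omega)
  · have h1 : Mᗮ ≤ (obvious e k)ᗮ := by
      intro g hg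
      have h2 : obvious e k ≤ (ℂ ∙ g)ᗮ := by
        refine Submodule.topologicalClosure_minimal _ ?_ (Submodule.isClosed_orthogonal _)
        rw [Submodule.span_le]
        rintro y ⟨m, hm, rfl⟩
        rw [SetLike.mem_coe, Submodule.mem_orthogonal_singleton_iff_inner_right]
        exact hvan f₁ hf₁ g hg k hk₁ hlow₁ m hm
      rw [Submodule.mem_orthogonal']
      intro x hx
      exact Submodule.mem_orthogonal_singleton_iff_inner_right.1 (h2 hx)
    calc obvious e k ≤ (obvious e k)ᗮᗮ := Submodule.le_orthogonal_orthogonal _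
      _ ≤ Mᗮᗮ := Submodule.orthogonal_le h1
      _ = M := hMM

lemma obvious_invariant {e : HilbertBasis ℤ ℂ H} {W : H →L[ℂ] H} (hW : IsShift e W) (k : ℤ) :
    ∀ x ∈ obvious e k, W x ∈ obvious e k := by
  intro x hx
  rw [mem_obvious] at hx ⊢
  intro n hn
  have h1 := coord_W hW (n - 1) x
  rw [sub_add_cancel] at h1
  rw [h1, hx (n - 1) (by omega), mul_zero]

/-- The chain of the obvious invariant subspaces. -/
def chain {e : HilbertBasis ℤ ℂ H} {W : H →L[ℂ] H} (hW : IsShift e W) :
    WithBot (WithTop ℤ) → Lat W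
  | ⊥ => ⟨⊥, by
      refine ⟨?_, fun x hx => ?_⟩
      · rw [Submodule.bot_coe]; exact isClosed_singleton
      · rw [Submodule.mem_bot] at hx ⊢; rw [hx, map_zero]⟩
  | ((⊤ : WithTop ℤ) : WithBot (WithTop ℤ)) => ⟨⊤, by
      refine ⟨?_, fun x hx => Submodule.mem_top⟩
      rw [Submodule.top_coe]; exact isClosed_univ⟩
  | (((k : ℤ) : WithTop ℤ) : WithBot (WithTop ℤ)) =>
      ⟨obvious e (-k), obvious_closed e _, obvious_invariant hW _⟩

/-- The shift exists. -/
theorem exists_shift (e : HilbertBasis ℤ ℂ H) : ∃ W : H →L[ℂ] H, IsShift e W := by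
  set F : ℤ → (H →L[ℂ] H) := fun n =>
    ((1 / 2 : ℂ) ^ n.natAbs) • (innerSL ℂ (e n)).smulRight (e (n + 1)) with hF
  have hnorm : ∀ n, ‖F n‖ ≤ (1 / 2 : ℝ) ^ n.natAbs := by
    intro n
    rw [hF]
    simp only
    rw [norm_smul, ContinuousLinearMap.norm_smulRight_apply, innerSL_apply_norm,
      e.orthonormal.1 n, e.orthonormal.1 (n + 1), norm_pow]
    norm_num
  have hsum : Summable (fun n : ℤ => (1 / 2 : ℝ) ^ n.natAbs) := by
    apply Summable.of_nat_of_neg
    · simpa using summable_geometric_two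
    · simpa using summable_geometric_two
  have hs : Summable F := Summable.of_norm_bounded hsum hnorm
  refine ⟨∑' n, F n, fun m => ?_⟩
  have h1 := (ContinuousLinearMap.apply ℂ H (e m)).hasSum hs.hasSum
  have h2 : HasSum (fun n => (ContinuousLinearMap.apply ℂ H (e m)) (F n))
      (((2 : ℂ) ^ (-|m|)) • e (m + 1)) := by
    have h3 : (fun n => (ContinuousLinearMap.apply ℂ H (e m)) (F n)) =
        fun n => if n = m then (((2 : ℂ) ^ (-|m|)) • e (m + 1)) else 0 := by
      funext n
      rw [ContinuousLinearMap.apply_apply, hF]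
      simp only [smul_apply, ContinuousLinearMap.smulRight_apply,
        innerSL_apply_apply]
      rw [inner_basis, zpow_eq]
      by_cases h : n = m
      · rw [if_pos h, if_pos h, h, one_smul]
      · rw [if_neg h, if_neg h, zero_smul, smul_zero]
    rw [h3]
    exact hasSum_ite_eq m _
  exact h1.unique h2

lemma chain_strictMono {e : HilbertBasis ℤ ℂ H} {W : H →L[ℂ] H} (hW : IsShift e W) :
    StrictMono (chain hW) := by
  have hpos : ∀ k, (⊥ : Submodule ℂ H) < obvious e k := by
    intro k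
    rw [bot_lt_iff_ne_bot]
    intro h
    have h1 : e k ∈ obvious e k := (basis_mem_obvious e).2 le_rfl
    rw [h, Submodule.mem_bot] at h1
    have h2 := e.orthonormal.1 k
    rw [h1, norm_zero] at h2
    exact zero_ne_one h2
  have htop : ∀ k, obvious e k < ⊤ := by
    intro k
    rw [lt_top_iff_ne_top]
    intro h
    have h1 : e (k - 1) ∈ obvious e k := by rw [h]; exact Submodule.mem_top
    rw [basis_mem_obvious] at h1
    omega
  have hlt : ∀ k l : ℤ, k < l → obvious e (-k) < obvious e (-l) := by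
    intro k l hkl
    rw [lt_iff_le_not_ge]
    constructor
    · intro x hx
      rw [mem_obvious] at hx ⊢
      intro n hn
      exact hx n (by omega)
    · intro h
      have h1 : e (-l) ∈ obvious e (-k) := h ((basis_mem_obvious e).2 le_rfl)
      rw [basis_mem_obvious] at h1
      omega
  intro x y hxy
  rcases x with _ | _ | k <;> rcases y with _ | _ | l
  · exact absurd hxy (lt_irrefl _)
  · exact (hpos 0).trans (htop 0)
  · exact hpos _
  · exact absurd (hxy.trans_le bot_le) (lt_irrefl _)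
  · exact absurd hxy (lt_irrefl _)
  · exact absurd hxy (not_lt.2 (WithBot.coe_le_coe.2 le_top))
  · exact absurd (hxy.trans_le bot_le) (lt_irrefl _)
  · exact htop _
  · have : k < l := WithTop.coe_lt_coe.1 (WithBot.coe_lt_coe.1 hxy)
    exact hlt k l this

lemma chain_surjective {e : HilbertBasis ℤ ℂ H} {W : H →L[ℂ] H} (hW : IsShift e W) :
    Function.Surjective (chain hW) := by
  rintro ⟨M, hcl, hM⟩
  rcases classification hW hcl hM with h | h | ⟨k, h⟩
  · exact ⟨⊥, Subtype.ext h.symm⟩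
  · exact ⟨((⊤ : WithTop ℤ) : WithBot (WithTop ℤ)), Subtype.ext h.symm⟩
  · refine ⟨(((-k : ℤ) : WithTop ℤ) : WithBot (WithTop ℤ)), Subtype.ext ?_⟩
    change obvious e (- -k) = M
    rw [neg_neg, h]

/-- The lattice of the invariant subspaces of the shift. -/
theorem lat_iso {e : HilbertBasis ℤ ℂ H} {W : H →L[ℂ] H} (hW : IsShift e W) :
    Nonempty (Lat W ≃o WithBot (WithTop ℤ)) :=
  ⟨((chain_strictMono hW).orderIsoOfSurjective _ (chain_surjective hW)).symm⟩

lemma separable_of_basis (e : HilbertBasis ℤ ℂ H) : TopologicalSpace.SeparableSpace H := by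
  rw [← TopologicalSpace.isSeparable_univ_iff]
  have h1 : TopologicalSpace.IsSeparable (Set.range e) :=
    (Set.countable_range e).isSeparable
  have h2 := (h1.span (R := ℂ)).closure
  have h3 : closure (Submodule.span ℂ (Set.range e) : Set H) = Set.univ := by
    have := e.dense_span
    rw [← Submodule.topologicalClosure_coe, this, Submodule.top_coe]
  rwa [h3] at h2

end

/-- The subspace is one of the obvious ones: `0`, `H` or some `M_k`. -/
def IsObvious {H : Type} [NormedAddCommGroup H] [InnerProductSpace ℂ H] (e : HilbertBasis ℤ ℂ H)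
    (M : Submodule ℂ H) : Prop :=
  M = ⊥ ∨ M = ⊤ ∨ ∃ k : ℤ, M = obvious e k

/-- The closed invariant subspaces of the shift are exactly the obvious ones, for the basis `e` of `H`. -/
def OnlyObvious (H : Type) [NormedAddCommGroup H] [InnerProductSpace ℂ H]
    (e : HilbertBasis ℤ ℂ H) : Prop :=
  (∃ W : H →L[ℂ] H, IsShift e W) ∧
  ∀ W : H →L[ℂ] H, IsShift e W →
    ∀ M : Submodule ℂ H, (IsClosed (M : Set H) ∧ ∀ x ∈ M, W x ∈ M) ↔ IsObvious e M

/-- The abstract lattice `L` is attainable: it is isomorphic to `Lat A` for a bounded operator on a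
separable Hilbert space. -/
def Attainable (L : Type) [LE L] : Prop :=
  ∃ (H : Type) (_ : NormedAddCommGroup H) (_ : InnerProductSpace ℂ H) (_ : CompleteSpace H)
    (_ : TopologicalSpace.SeparableSpace H) (A : H →L[ℂ] H), Nonempty (Lat A ≃o L)

/-- **Q2 and Q1.**  The closed invariant subspaces of the bilateral weighted shift
`W (e n) = 2 ^ (-|n|) e (n + 1)` are exactly the obvious ones; this shift is a bounded operator; and the
chain `1 + *ω + ω + 1` is attainable. -/
theorem result :
    (∀ (H : Type) [NormedAddCommGroup H] [InnerProductSpace ℂ H] [CompleteSpace H]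
      (e : HilbertBasis ℤ ℂ H), OnlyObvious H e) ∧
    Attainable (WithBot (WithTop ℤ)) := by
  refine ⟨?_, ?_⟩
  · intro H _ _ _ e
    refine ⟨exists_shift e, fun W hW M => ?_⟩
    constructor
    · rintro ⟨hcl, hM⟩
      exact classification hW hcl hM
    · rintro (rfl | rfl | ⟨k, rfl⟩)
      · refine ⟨?_, fun x hx => ?_⟩
        · rw [Submodule.bot_coe]; exact isClosed_singleton
        · rw [Submodule.mem_bot] at hx ⊢; rw [hx, map_zero]
      · refine ⟨?_, fun x _ => Submodule.mem_top⟩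
        rw [Submodule.top_coe]; exact isClosed_univ
      · exact ⟨obvious_closed e k, obvious_invariant hW k⟩
  · obtain ⟨W, hW⟩ := exists_shift
      (HilbertBasis.ofRepr (LinearIsometryEquiv.refl ℂ (lp (fun _ : ℤ => ℂ) 2)))
    exact ⟨_, _, _, inferInstance,
      separable_of_basis (HilbertBasis.ofRepr (LinearIsometryEquiv.refl ℂ (lp (fun _ : ℤ => ℂ) 2))),
      W, lat_iso hW⟩

end Pool.Agent.Results.MP_1e8505_an.HalmosChain
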